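import Mathlib
import Pool.Agent.Lib.helper23.FBB

set_option autoImplicit false

namespace Pool.Agent.Results.MP_207313_an.Main

open Pool.Agent.Lib.helper23.FB

section
variable {E : Type} [NormedAddCommGroup E] [NormedSpace ℝ E] {u w : E} {a b : StrongDual ℝ E}

theorem adm (hv : ∀ v, v = a v • u + b v • w) (hn : ∀ v, ‖v‖ = |a v| + |b v|) {ι : Type}
    [Fintype ι] (x : ι → StrongDual ℝ E) {c : ℝ} (h1 : ∑ i, |x i u| ≤ c) (h2 : ∑ i, |x i w| ≤ c)
    (v : E) (h : ‖v‖ ≤ 1) : ∑ i, |x i v| ≤ c := by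
  have k : ∀ t : StrongDual ℝ E, |t v| ≤ |a v| * |t u| + |b v| * |t w| := fun t => by
    conv_lhs => rw [hv v]
    simpa [abs_mul] using abs_add_le (a v * t u) (b v * t w)
  refine (Finset.sum_le_sum fun i _ => k _).trans ?_
  simp only [Finset.sum_add_distrib, ← Finset.mul_sum]
  have p0 := abs_nonneg (a v)
  have p1 := abs_nonneg (b v)
  have : 0 ≤ c := (Finset.sum_nonneg fun _ _ => abs_nonneg _).trans h1
  rw [hn] at h
  nlinarith

theorem helly (hv : ∀ v, v = a v • u + b v • w) (hn : ∀ v, ‖v‖ = |a v| + |b v|) (g : H E)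
    (hg : ‖g‖ ≤ 1) : ∃ l : ℝ, 0 ≤ l ∧ l ≤ 1 ∧ ∀ x, |g.1 x| ≤ l * |x u| + (1 - l) * |x w| := by
  have two : ∀ (x y : StrongDual ℝ E) (s t c : ℝ), 0 ≤ s → 0 ≤ t → s * |x u| + t * |y u| ≤ c →
      s * |x w| + t * |y w| ≤ c → s * |g.1 x| + t * |g.1 y| ≤ c := fun x y s t c hs ht h1 h2 => by
    have hc : 0 ≤ c := le_trans (by positivity) h1
    refine le_of_forall_pos_le_add fun ε hε => ?_
    have := sum_le g ![s • x, t • y] (c := c + ε) (by positivity) (adm hv hn _
      (by simpa [abs_mul, abs_of_nonneg hs, abs_of_nonneg ht] using h1.trans (by linarith))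
      (by simpa [abs_mul, abs_of_nonneg hs, abs_of_nonneg ht] using h2.trans (by linarith)))
    simp only [Fin.sum_univ_two, Matrix.cons_val_zero, Matrix.cons_val_one, g.2.1 s hs, g.2.1 t ht,
      abs_mul, abs_of_nonneg hs, abs_of_nonneg ht] at this
    nlinarith
  have one : ∀ (x : StrongDual ℝ E) (c : ℝ), |x u| ≤ c → |x w| ≤ c → |g.1 x| ≤ c :=
    fun x c h1 h2 => by simpa using two x x 1 0 c zero_le_one le_rfl (by simpa) (by simpa)
  let S : Set ℝ := {l | l = 0 ∨ ∃ x : StrongDual ℝ E, |x w| < |x u| ∧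
    l = (|g.1 x| - |x w|) / (|x u| - |x w|)}
  have hS : 1 ∈ upperBounds S := by
    rintro _ (rfl | ⟨x, hx, rfl⟩)
    · exact zero_le_one
    · rw [div_le_one (sub_pos.2 hx)]
      linarith [one x _ le_rfl hx.le]
  refine ⟨sSup S, le_csSup ⟨_, hS⟩ (Or.inl rfl), csSup_le ⟨0, Or.inl rfl⟩ hS, fun x => ?_⟩
  rcases lt_trichotomy |x w| |x u| with hx | hx | hx
  · have := le_csSup ⟨_, hS⟩ (Or.inr ⟨x, hx, rfl⟩ : _ ∈ S)
    rw [div_le_iff₀ (sub_pos.2 hx)] at this
    linarith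
  · have := one x _ le_rfl hx.le
    rw [hx]
    linarith
  · have : sSup S ≤ (|x w| - |g.1 x|) / (|x w| - |x u|) := csSup_le ⟨0, Or.inl rfl⟩ (by
      rintro _ (rfl | ⟨y, hy, rfl⟩)
      · exact div_nonneg (sub_nonneg.2 (one x _ hx.le le_rfl)) (sub_pos.2 hx).le
      · rw [div_le_div_iff₀ (sub_pos.2 hy) (sub_pos.2 hx)]
        have := two y x (|x w| - |x u|) (|y u| - |y w|) _ (sub_pos.2 hx).le (sub_pos.2 hy).le
          le_rfl (le_of_eq (by ring))
        linarith)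
    rw [le_div_iff₀ (sub_pos.2 hx)] at this
    linarith

theorem daug (hv : ∀ v, v = a v • u + b v • w) (hn : ∀ v, ‖v‖ = |a v| + |b v|)
    (au : a u = 1) (aw : a w = 0) (bu : b u = 0) (bw : b w = 1) : Daugavet (FBL E) := by
  intro T hT
  have hE : ∀ p : StrongDual ℝ E, Submodule.span ℝ {p} ≠ ⊤ := fun p hp => by
    obtain ⟨s, hs⟩ := Submodule.mem_span_singleton.1 (hp ▸ Submodule.mem_top : a ∈ _)
    obtain ⟨t, ht⟩ := Submodule.mem_span_singleton.1 (hp ▸ Submodule.mem_top : b ∈ _)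
    simp only [← hs, ← ht, ContinuousLinearMap.smul_apply, smul_eq_mul] at au aw bu bw
    rcases mul_eq_zero.1 aw with h | h
    · simp [h] at au
    · simp [h] at bw
  have hu : ‖u‖ ≤ 1 := by simp [hn, au, bu]
  have hw : ‖w‖ ≤ 1 := by simp [hn, aw, bw]
  refine le_antisymm ((ContinuousLinearMap.opNorm_add_le _ _).trans
    (add_le_add_left ContinuousLinearMap.norm_id_le _)) ?_
  set N := ‖ContinuousLinearMap.id ℝ (FBL E) + T‖ with hN
  have hN0 : 0 ≤ N := ContinuousLinearMap.opNorm_nonneg _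
  suffices h : ∀ ε : ℝ, 0 < ε → 1 + ‖T‖ - 4 * ε ≤ (1 + ε) * (N + 2 * ε) by
    refine le_of_forall_pos_le_add fun ε hε => ?_
    have h1 := h (min 1 (ε / (N + 8))) (by positivity)
    have h2 := min_le_left 1 (ε / (N + 8))
    have h3 := min_le_right 1 (ε / (N + 8))
    have h4 : 0 < min 1 (ε / (N + 8)) := by positivity
    rw [le_div_iff₀ (by positivity)] at h3
    nlinarith
  intro ε hε
  obtain ⟨g, hg, g1, g2⟩ := dense_gen.exists_mem_open
    ((isOpen_lt continuous_norm continuous_const).inter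
      (isOpen_lt continuous_const T.continuous.norm))
    (T.exists_lt_apply_of_lt_opNorm (show ‖T‖ - ε < ‖T‖ by linarith))
  obtain ⟨U, hU, hU'⟩ := exists_gen (T g) hε
  obtain ⟨l, l0, l1, hl⟩ := helly hv hn g.1 g1.le
  obtain ⟨m, x, hx, hs⟩ := exists_fam U.1 hε
  obtain ⟨K, hK⟩ := exists_nat_gt (2 * ‖T‖ / ε)
  let h : StrongDual ℝ E → ℝ := l • |fun x => x u| + (1 - l) • |fun x => x w|
  have hh : Gen E h := ((Gen.delta u).abs.smul _).add ((Gen.delta w).abs.smul _)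
  have hd : ∀ x, h x = l * |x u| + (1 - l) * |x w| := fun x => rfl
  have nh : ∀ (y : FBL E) (c : ℝ), 0 ≤ c → (∀ x, |y.1.1 x| ≤ c * h x) → ‖y‖ ≤ c :=
    fun y c hc hy => norm_le y.1 fun n z hz => by
      refine (Finset.sum_le_sum fun i _ => hy _).trans ?_
      simp only [hd, ← Finset.mul_sum, Finset.sum_add_distrib]
      have := hz u hu
      have := hz w hw
      exact mul_le_of_le_one_right hc (by nlinarith)
  have s1 := sub_nonneg.2 (hx u hu)
  have s2 := sub_nonneg.2 (hx w hw)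
  let z : Fin m ⊕ Fin 2 → StrongDual ℝ E :=
    Sum.elim x ![(1 - ∑ i, |x i u|) • a, (1 - ∑ i, |x i w|) • b]
  have z1 : ∑ i, |z i u| = 1 := by simp [z, au, bu, abs_of_nonneg s1]
  have z2 : ∑ i, |z i w| = 1 := by simp [z, aw, bw, abs_of_nonneg s2]
  obtain ⟨y, y1, y2, y3⟩ := exists_mod' hE (id : Fin K → Fin K) (fun _ => Fin m ⊕ Fin 2)
    (fun _ => z) zero_le_one (fun _ => adm hv hn z z1.le z2.le) (fun _ => U) (fun _ => hU) hg hh
    hl hε
  obtain ⟨v, -, hvv⟩ := finrank_eq_one_iff'.1 hT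
  choose c hc using fun k => hvv ⟨T (y k - g), _, rfl⟩
  replace hc : ∀ k, T (y k - g) = c k • v.1 := fun k => (congrArg Subtype.val (hc k)).symm
  have sm : ∑ k, ‖T (y k - g)‖ ≤ ‖T‖ * 2 := by
    have e : ∑ k, ‖T (y k - g)‖ = ‖T (∑ k, (SignType.sign (c k) : ℝ) • (y k - g))‖ := by
      simp only [map_sum, map_smul, hc, smul_smul, sign_mul_self, ← Finset.sum_smul, norm_smul,
        ← Finset.sum_mul, Real.norm_eq_abs]
      rw [abs_of_nonneg (Finset.sum_nonneg fun _ _ => abs_nonneg _)]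
    rw [e]
    refine T.le_opNorm_of_le (nh _ 2 zero_le_two fun t => ?_)
    have ev : (∑ k, (SignType.sign (c k) : ℝ) • (y k - g)).1.1 t =
        ∑ k, (SignType.sign (c k) : ℝ) * ((y k).1.1 t - g.1.1 t) := by
      let ev : FBL E →+ ℝ := ⟨⟨fun f => f.1.1 t, rfl⟩, fun _ _ => rfl⟩
      exact map_sum ev _ _
    have h0 : 0 ≤ h t := (abs_nonneg _).trans (hl t)
    rw [ev]
    by_cases hk : ∃ k, (y k).1.1 t ≠ g.1.1 t
    · obtain ⟨k, hk⟩ := hk
      rw [Finset.sum_eq_single k (fun j _ hj => by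
        rw [(y3 j k hj t).resolve_right hk, sub_self, mul_zero]) (by simp), abs_mul]
      have : |(SignType.sign (c k) : ℝ)| ≤ 1 := by
        rcases SignType.trichotomy (SignType.sign (c k)) with e | e | e <;> simp [e]
      refine (mul_le_of_le_one_left (abs_nonneg _) this).trans ((abs_sub _ _).trans ?_)
      linarith [y1 k t, hl t, hd t]
    · push Not at hk
      simpa [hk] using h0
  obtain ⟨k, hk⟩ : ∃ k, ‖T (y k - g)‖ ≤ ε := by
    by_contra hc
    push Not at hc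
    have := Finset.sum_le_sum fun k (_ : k ∈ Finset.univ) => (hc k).le
    rw [div_lt_iff₀ hε] at hK
    simp only [Finset.sum_const, Finset.card_univ, Fintype.card_fin, nsmul_eq_mul] at this
    linarith
  have f1 := y2 k
  have f2 : ∑ i, h (z i) = 1 := by
    simp only [hd, Finset.sum_add_distrib, ← Finset.mul_sum, z1, z2]
    ring
  have f3 : ∑ i, |U.1.1 (x i)| ≤ ∑ i, |U.1.1 (z i)| := by
    rw [Fintype.sum_sum_type]
    exact le_add_of_nonneg_right (Finset.sum_nonneg fun _ _ => abs_nonneg _)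
  have f4 : ‖y k + T (y k)‖ ≤ N * 1 := (ContinuousLinearMap.id ℝ (FBL E) + T).le_opNorm_of_le
    (nh _ 1 zero_le_one fun t => by simpa using y1 k t)
  have f5 : ‖y k + U‖ ≤ N + 2 * ε := by
    have : y k + U = y k + T (y k) - T (y k - g) - (T g - U) := by rw [map_sub]; abel
    rw [this]
    linarith [norm_sub_le (y k + T (y k) - T (y k - g)) (T g - U),
      norm_sub_le (y k + T (y k)) (T (y k - g))]
  have f6 := norm_sub_norm_le (T g) U
  have f7 : ‖U‖ = ‖U.1‖ := rfl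
  have f8 : ‖T‖ - ε < ‖T g‖ := g2
  have f9 := mul_le_mul_of_nonneg_left f5 (show 0 ≤ 1 + ε by positivity)
  simp only [id] at f1
  linarith

end

theorem result : Nontrivial (FBL (PiLp 1 fun _ : Fin 2 => ℝ)) ∧
    Daugavet (FBL (PiLp 1 fun _ : Fin 2 => ℝ)) := by
  refine ⟨⟨mk _ (Gen.delta (PiLp.single 1 0 1)), 0, fun h => ?_⟩,
    daug (u := PiLp.single 1 0 1) (w := PiLp.single 1 1 1) (a := PiLp.proj 1 _ 0)
    (b := PiLp.proj 1 _ 1) (fun v => ?_) (fun v => ?_) (by simp) (by simp) (by simp) (by simp)⟩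
  · have := congrArg (fun f : FBL (PiLp 1 fun _ : Fin 2 => ℝ) => f.1.1 (PiLp.proj 1 _ 0)) h
    have h2 : (1 : ℝ) = 0 := this
    exact one_ne_zero h2
  · ext i
    fin_cases i <;> simp
  · simp [PiLp.norm_eq_of_L1]

end Pool.Agent.Results.MP_207313_an.Main
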